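import Mathlib
import Pool.Agent.TH845.KN.B2
import Pool.Agent.Y820.LB.Closure
import Pool.Agent.V1156.RC.Main

/-!
# Mahler measures of polynomials having a large resultant with a product of cyclotomic polynomials

Let `φ n` tend to infinity. The class consists of the monic irreducible integer polynomials `f` such
that no quotient of two distinct zeros of `f` is a root of unity and such that, `n` being the degree
of `f`, there is a product `b` of distinct cyclotomic polynomials, of degree `t ≤ n`, containing with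
`Φ_m` all `Φ_d`, `d ∣ m` (for example `b = X ^ t - 1`), with
`log |Res(f, b)| ≥ φ(n) √(n t) (1 + log n) ^ (3/4)`.
Below every bound there are only finitely many Mahler measures of polynomials of the class. So the
multiplicative monoid generated by these measures and by any class with bounded companions has
bounded companions: its closure consists of Mahler measures, it has a gap above `1`, and below every
bound it has finite Cantor-Bendixson rank.
-/

set_option autoImplicit false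

namespace Pool.Agent.Results.MP_6d22ea_nt.LargeResultants

open Polynomial Filter

noncomputable section

/-- The point `(exp (2 π i t_1), …, exp (2 π i t_k))` of the torus. -/
def torusPoint {k : ℕ} (t : Fin k → ℝ) : Fin k → ℂ := fun j =>
  Complex.exp (2 * (Real.pi : ℂ) * Complex.I * ((t j : ℝ) : ℂ))

/-- The Mahler measure of a complex polynomial in `k` variables. -/
def mahler {k : ℕ} (F : MvPolynomial (Fin k) ℂ) : ℝ :=
  Real.exp (∫ t in Set.Icc (0 : Fin k → ℝ) 1, Real.log ‖MvPolynomial.eval (torusPoint t) F‖)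

/-- The integral of `log max(|F|, |G|)` over the torus. -/
def pairHeight {k : ℕ} (F G : MvPolynomial (Fin k) ℂ) : ℝ :=
  ∫ t in Set.Icc (0 : Fin k → ℝ) 1,
    Real.log (max ‖MvPolynomial.eval (torusPoint t) F‖ ‖MvPolynomial.eval (torusPoint t) G‖)

/-- An integer polynomial as a complex polynomial. -/
def toComplex {k : ℕ} (F : MvPolynomial (Fin k) ℤ) : MvPolynomial (Fin k) ℂ :=
  MvPolynomial.map (Int.castRingHom ℂ) F

/-- The set of the Mahler measures of the nonzero integer polynomials in any number of variables. -/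
def allMeasures : Set ℝ :=
  {x : ℝ | ∃ k : ℕ, 1 ≤ k ∧ ∃ F : MvPolynomial (Fin k) ℤ, F ≠ 0 ∧ x = mahler (toComplex F)}

/-- The Mahler measures of the nonzero polynomials `F` having a coprime companion `G ≠ 0` with
`∫ log max(|F|, |G|) ≤ K`. -/
def L (K : ℝ) : Set ℝ :=
  {x : ℝ | ∃ k : ℕ, 1 ≤ k ∧ ∃ F G : MvPolynomial (Fin k) ℤ, F ≠ 0 ∧ G ≠ 0 ∧ IsRelPrime F G ∧
    pairHeight (toComplex F) (toComplex G) ≤ K ∧ x = mahler (toComplex F)}

/-- For every `B` some `L K` contains all elements of `T` below `B`. -/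
def BoundedCompanions (T : Set ℝ) : Prop := ∀ B : ℝ, ∃ K : ℝ, T ∩ Set.Iio B ⊆ L K

/-- The absolute value of the resultant of the monic polynomial `f` and of `b`: the product of
`|b(y)|` over the complex zeros `y` of `f` (with multiplicity). -/
def resAbs (f b : ℤ[X]) : ℝ :=
  ((f.map (Int.castRingHom ℂ)).roots.map fun y => ‖aeval y b‖).prod

/-- No quotient of two distinct zeros of `f` is a root of unity. -/
def Nondegenerate (f : ℤ[X]) : Prop :=
  ∀ z z' : ℂ, aeval z f = 0 → aeval z' f = 0 → z ≠ z' → ∀ j : ℕ, 1 ≤ j → z ^ j ≠ z' ^ j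

/-- For some finite nonempty set `𝒟` of positive integers, containing the divisors of its elements,
the product `b` of the cyclotomic polynomials `Φ_m`, `m ∈ 𝒟`, has degree `t ≤ n`, `n` the degree of
`f`, and `log |Res(f, b)| ≥ φ(n) √(n t) (1 + log n) ^ (3/4)`. -/
def LargeResultant (φ : ℕ → ℝ) (f : ℤ[X]) : Prop :=
  ∃ 𝒟 : Finset ℕ, 𝒟.Nonempty ∧ (∀ m ∈ 𝒟, 0 < m) ∧ (∀ m ∈ 𝒟, ∀ d, d ∣ m → d ∈ 𝒟) ∧
    (∑ m ∈ 𝒟, Nat.totient m) ≤ f.natDegree ∧
    φ f.natDegree * (Real.sqrt (f.natDegree * (∑ m ∈ 𝒟, Nat.totient m : ℕ)) *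
      (1 + Real.log f.natDegree) ^ (3 / 4 : ℝ)) ≤
        Real.log (resAbs f (∏ m ∈ 𝒟, cyclotomic m ℤ))

/-- The Mahler measures of the polynomials of the class. -/
def classMeasures (φ : ℕ → ℝ) : Set ℝ :=
  {x : ℝ | ∃ f : ℤ[X], Irreducible f ∧ f.Monic ∧ Nondegenerate f ∧ LargeResultant φ f ∧
    x = (f.map (Int.castRingHom ℂ)).mahlerMeasure}

lemma finite_below {φ : ℕ → ℝ} (hφ : Tendsto φ atTop atTop) (B : ℝ) :
    (classMeasures φ ∩ Set.Iic B).Finite := by
  set b : ℝ := Real.log (max B 1) + 1 with hb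
  have hb1 : 1 ≤ b := by
    have : 0 ≤ Real.log (max B 1) := Real.log_nonneg (le_max_right _ _)
    linarith
  have h1 : ∀ᶠ n : ℕ in atTop, 200 * b ≤ φ n := hφ.eventually_ge_atTop _
  have h2 : ∀ᶠ n : ℕ in atTop, b ≤ 1 + Real.log n :=
    (tendsto_atTop_add_const_left _ 1
      (Real.tendsto_log_atTop.comp tendsto_natCast_atTop_atTop)).eventually_ge_atTop _
  obtain ⟨N, hN⟩ := eventually_atTop.mp (h1.and h2)
  have hfin := Polynomial.finite_mahlerMeasure_le N (Real.toNNReal (max B 1))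
  refine ((Set.finite_singleton (1:ℝ)).union
    (hfin.image fun f => (f.map (Int.castRingHom ℂ)).mahlerMeasure)).subset ?_
  rintro x ⟨⟨f, hf, hfm, hnd, ⟨𝒟, hne, hpos, hcl, ht, hΛ⟩, rfl⟩, hB⟩
  have hB' : (f.map (Int.castRingHom ℂ)).mahlerMeasure ≤ B := hB
  have hM1 : 1 ≤ (f.map (Int.castRingHom ℂ)).mahlerMeasure :=
    Pool.Agent.H261R2.CM.F_one_le_m1 hf.ne_zero
  rcases hM1.eq_or_lt with h | hM
  · exact Or.inl h.symm
  right
  refine ⟨f, ⟨?_, ?_⟩, rfl⟩
  swap
  · rw [Real.coe_toNNReal _ (le_trans zero_le_one (le_max_right _ _))]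
    exact hB'.trans (le_max_left _ _)
  by_contra hcon
  push Not at hcon
  obtain ⟨g1, g2⟩ := hN f.natDegree hcon.le
  set n := f.natDegree with hn
  set t := ∑ m ∈ 𝒟, Nat.totient m with htt
  have ht1 : 1 ≤ t := by
    obtain ⟨m, hm⟩ := hne
    exact le_trans (Nat.totient_pos.mpr (hpos m hm))
      (Finset.single_le_sum (f := fun m => Nat.totient m) (fun _ _ => Nat.zero_le _) hm)
  have hn1 : (1:ℝ) ≤ n := by exact_mod_cast ht1.trans ht
  have ht1' : (1:ℝ) ≤ t := by exact_mod_cast ht1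
  have hln : 0 ≤ Real.log n := Real.log_nonneg hn1
  set l : ℝ := 1 + Real.log n with hl
  have hl1 : 1 ≤ l := by linarith
  set s := Real.sqrt (n * t) with hs
  have hs0 : 0 < s := Real.sqrt_pos.mpr (by positivity)
  set u : ℝ := l ^ (3 / 4 : ℝ) with hu
  have hu1 : 1 ≤ u := Real.one_le_rpow hl1 (by norm_num)
  have hu4 : u ^ 4 = l ^ 3 := by
    rw [hu, ← Real.rpow_natCast, ← Real.rpow_mul (by linarith), ← Real.rpow_natCast]
    norm_num
  have g3 := (Pool.Agent.V1156.RC.main_cyc f hf hfm 𝒟 hne hpos n t hn htt ht).2 hM hnd hcl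
  have g4 : 200 * b * (s * u) ≤ φ n * (s * u) := mul_le_mul_of_nonneg_right g1 (by positivity)
  have hΛ2 : 200 * b * (s * u) ≤ Real.log (Pool.Agent.V1156.RC.resAbs f
      (∏ m ∈ 𝒟, cyclotomic m ℤ)) := g4.trans hΛ
  have hbu : 1 ≤ b * u := by nlinarith
  have g5 := g3 (by
    refine le_trans ?_ hΛ2
    nlinarith)
  have g6 : b ≤ Real.log (f.map (Int.castRingHom ℂ)).mahlerMeasure := by
    refine le_trans (le_min g2 ?_) g5
    rw [le_div_iff₀ (by positivity)]
    have g7 : b * u ≤ Real.log (Pool.Agent.V1156.RC.resAbs f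
        (∏ m ∈ 𝒟, cyclotomic m ℤ)) / (200 * s) := by
      rw [le_div_iff₀ (by positivity)]
      linarith
    have g8 := pow_le_pow_left₀ (by positivity) g7 4
    refine le_trans ?_ g8
    rw [mul_pow, hu4]
    refine mul_le_mul_of_nonneg_right ?_ (by positivity)
    calc b = b ^ 1 := (pow_one b).symm
      _ ≤ b ^ 4 := pow_le_pow_right₀ hb1 (by norm_num)
  have g9 : Real.log (f.map (Int.castRingHom ℂ)).mahlerMeasure ≤ Real.log (max B 1) :=
    Real.log_le_log (by linarith) (hB'.trans (le_max_left _ _))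
  linarith

lemma bc_class {φ : ℕ → ℝ} (hφ : Tendsto φ atTop atTop) :
    Pool.Agent.TH845.KN.BC (classMeasures φ) := by
  intro B
  have h1 := finite_below hφ B
  have h2 : ∀ x ∈ classMeasures φ ∩ Set.Iic B, ∃ K : ℝ, x ∈ Pool.Agent.H261R2.CM.LL K := by
    rintro x ⟨⟨f, hf, -, -, -, rfl⟩, -⟩
    exact ⟨_, Pool.Agent.W242.IM.m1_mem_LL f 1 hf.ne_zero one_ne_zero
      isRelPrime_one_right _ le_rfl⟩
  choose! K hK using h2
  obtain ⟨M, hM⟩ := (h1.image K).bddAbove
  refine ⟨M, ?_⟩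
  rintro x ⟨hx, hxB⟩
  have hx2 : x ∈ classMeasures φ ∩ Set.Iic B := ⟨hx, (Set.mem_Iio.mp hxB).le⟩
  exact Pool.Agent.H261R2.CM.LL_mono (hM ⟨x, hx2, rfl⟩) (hK x hx2)

theorem result (φ : ℕ → ℝ) (hφ : Tendsto φ atTop atTop) :
    (∀ B : ℝ, (classMeasures φ ∩ Set.Iic B).Finite) ∧
    (∀ T : Set ℝ, BoundedCompanions T →
      BoundedCompanions (Submonoid.closure (T ∪ classMeasures φ) : Submonoid ℝ) ∧
      closure ((Submonoid.closure (T ∪ classMeasures φ) : Submonoid ℝ) : Set ℝ) ⊆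
        allMeasures ∧
      (∃ δ : ℝ, 1 < δ ∧ ∀ x ∈ (Submonoid.closure (T ∪ classMeasures φ) : Submonoid ℝ),
        x = 1 ∨ δ ≤ x) ∧
      ∀ B : ℝ, ∃ m : ℕ, ∀ x ∈ derivedSet^[m]
        ((Submonoid.closure (T ∪ classMeasures φ) : Submonoid ℝ) : Set ℝ), B ≤ x) := by
  refine ⟨finite_below hφ, fun T hT => ?_⟩
  have h1 : Pool.Agent.TH845.KN.BC
      ((Submonoid.closure (T ∪ classMeasures φ) : Submonoid ℝ) : Set ℝ) :=
    Pool.Agent.TH845.KN.BC_monoid (Pool.Agent.TH845.KN.BC.union hT (bc_class hφ))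
  obtain ⟨h2, h3⟩ := Pool.Agent.W242.IM.closure_of_LL _ h1
  exact ⟨h1, h2, Pool.Agent.TH845.KN.gap_BC h1, h3⟩

end

end Pool.Agent.Results.MP_6d22ea_nt.LargeResultants
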