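import Mathlib
import Pool.Agent.H196R3.LId
import Pool.Agent.V11316.LM3
import Pool.Agent.V1156.RC.Closed

/-!
# Mahler measures of units with linear relations between, or exceptional linear combinations of,
monomials in the conjugates

Let `ε > 0` and let `φ n` tend to infinity. The class consists of the monic irreducible integer
polynomials `f` with `|f(0)| = 1`, of degree `n`, for which there is a nonempty finite set `S` of `k`
nonzero complex numbers, each `x` in `S` a product of at most `D(x) ≥ 1` numbers each of which is a zero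
of `f` or the inverse of a zero of `f`, no quotient of two distinct members of `S` being a root of
unity, such that with `W = k (∑ D(x)) (log 2k) ^ 4` one of the following holds:

* `n (k - r) ≥ φ(n) W`, where `r` is the dimension of the rational vector space spanned by `S`;
* `n ≥ φ(n) W` and for some `β = ∑ a_x x` with rational `a_x`, not all zero, the geometric mean of the
  squares of the absolute values of the conjugates of `β` is at least `(1 + ε) ∑ a_x ^ 2`, or their
  arithmetic mean is at most `(1 - ε) ∑ a_x ^ 2`.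

Examples: the `f` of which `k ≤ √n / (ψ(n) (log 2n) ^ 2)` zeros, no quotient of which is a root of
unity, satisfy a rational linear relation; the `f` the zeros of which span a rational vector space of
dimension at most `n / (ψ(n) (log 2n) ^ 4)` and have no root of unity as a quotient, `ψ(n)` tending to
infinity.

Below every bound there are only finitely many Mahler measures of polynomials of the class. So the
multiplicative monoid generated by these measures and by any class with bounded companions has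
bounded companions: its closure consists of Mahler measures, it has a gap above `1`, and below every
bound it has finite Cantor-Bendixson rank.
-/

set_option autoImplicit false

namespace Pool.Agent.Results.MP_6d22ea_nt.LinearRelations

open Polynomial Filter

noncomputable section

/-- The point `(exp (2 π i t_1), …, exp (2 π i t_k))` of the torus. -/
def torusPoint {k : ℕ} (t : Fin k → ℝ) : Fin k → ℂ := fun j =>
  Complex.exp (2 * (Real.pi : ℂ) * Complex.I * ((t j : ℝ) : ℂ))

/-- The Mahler measure of a complex polynomial in `k` variables. -/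
def mahler {k : ℕ} (F : MvPolynomial (Fin k) ℂ) : ℝ :=
  Real.exp (∫ t in Set.Icc (0 : Fin k → ℝ) 1, Real.log ‖MvPolynomial.eval (torusPoint t) F‖)

/-- The integral of `log max(|F|, |G|)` over the torus. -/
def pairHeight {k : ℕ} (F G : MvPolynomial (Fin k) ℂ) : ℝ :=
  ∫ t in Set.Icc (0 : Fin k → ℝ) 1,
    Real.log (max ‖MvPolynomial.eval (torusPoint t) F‖ ‖MvPolynomial.eval (torusPoint t) G‖)

/-- An integer polynomial as a complex polynomial. -/
def toComplex {k : ℕ} (F : MvPolynomial (Fin k) ℤ) : MvPolynomial (Fin k) ℂ :=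
  MvPolynomial.map (Int.castRingHom ℂ) F

/-- The set of the Mahler measures of the nonzero integer polynomials in any number of variables. -/
def allMeasures : Set ℝ :=
  {x : ℝ | ∃ k : ℕ, 1 ≤ k ∧ ∃ F : MvPolynomial (Fin k) ℤ, F ≠ 0 ∧ x = mahler (toComplex F)}

/-- The Mahler measures of the nonzero polynomials `F` having a coprime companion `G ≠ 0` with
`∫ log max(|F|, |G|) ≤ K`. -/
def L (K : ℝ) : Set ℝ :=
  {x : ℝ | ∃ k : ℕ, 1 ≤ k ∧ ∃ F G : MvPolynomial (Fin k) ℤ, F ≠ 0 ∧ G ≠ 0 ∧ IsRelPrime F G ∧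
    pairHeight (toComplex F) (toComplex G) ≤ K ∧ x = mahler (toComplex F)}

/-- For every `B` some `L K` contains all elements of `T` below `B`. -/
def BoundedCompanions (T : Set ℝ) : Prop := ∀ B : ℝ, ∃ K : ℝ, T ∩ Set.Iio B ⊆ L K

/-- Every `x` in `S` is a nonzero product of at most `D x` zeros, and inverses of zeros, of `f`, where
`D x ≥ 1`. -/
def Monomials (f : ℤ[X]) (S : Finset ℂ) (D : ℂ → ℕ) : Prop :=
  ∀ x ∈ S, 1 ≤ D x ∧ ∃ l : List ℂ, l.length ≤ D x ∧
    (∀ z ∈ l, aeval z f = 0 ∨ aeval z⁻¹ f = 0) ∧ x = l.prod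

/-- No quotient of two distinct elements of `S` is a root of unity. -/
def QuotientsNotTorsion (S : Finset ℂ) : Prop :=
  ∀ x ∈ S, ∀ y ∈ S, x ≠ y → ∀ m : ℕ, 0 < m → x ^ m ≠ y ^ m

/-- the number `W = k (∑ D(x)) (log 2k) ^ 4` -/
def weight (S : Finset ℂ) (D : ℂ → ℕ) : ℝ :=
  S.card * (∑ x ∈ S, (D x : ℝ)) * Real.log (2 * S.card) ^ 4

/-- the dimension of the rational vector space spanned by `S` -/
def rank (S : Finset ℂ) : ℕ := Module.finrank ℚ (Submodule.span ℚ (S : Set ℂ))

/-- For some `β = ∑ a_x x` with rational `a_x`, not all zero, of degree `d`, the product of the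
squares of the absolute values of the `d` conjugates of `β` is at least `((1 + ε) ∑ a_x ^ 2) ^ d`. -/
def LargeNorm (ε : ℝ) (S : Finset ℂ) : Prop :=
  ∃ a : ℂ → ℚ, (∃ x ∈ S, a x ≠ 0) ∧ ∃ β : ℂ, β = ∑ x ∈ S, (a x : ℂ) * x ∧
    ((1 + ε) * ∑ x ∈ S, ((a x : ℚ) : ℝ) ^ 2) ^ (minpoly ℚ β).natDegree ≤
      (((minpoly ℚ β).aroots ℂ).map (fun z => ‖z‖ ^ 2)).prod

/-- For some `β = ∑ a_x x` with rational `a_x`, not all zero, of degree `d`, the sum of the squares
of the absolute values of the `d` conjugates of `β` is at most `d (1 - ε) ∑ a_x ^ 2`. -/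
def SmallMeanSquare (ε : ℝ) (S : Finset ℂ) : Prop :=
  ∃ a : ℂ → ℚ, (∃ x ∈ S, a x ≠ 0) ∧ ∃ β : ℂ, β = ∑ x ∈ S, (a x : ℂ) * x ∧
    (((minpoly ℚ β).aroots ℂ).map (fun z => ‖z‖ ^ 2)).sum ≤
      (minpoly ℚ β).natDegree * ((1 - ε) * ∑ x ∈ S, ((a x : ℚ) : ℝ) ^ 2)

/-- The class of polynomials. -/
def InClass (ε : ℝ) (φ : ℕ → ℝ) (f : ℤ[X]) : Prop :=
  Irreducible f ∧ f.Monic ∧ |f.coeff 0| = 1 ∧ ∃ (S : Finset ℂ) (D : ℂ → ℕ), S.Nonempty ∧
    Monomials f S D ∧ QuotientsNotTorsion S ∧
    (φ f.natDegree * weight S D ≤ f.natDegree * ((S.card : ℝ) - rank S) ∨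
      φ f.natDegree * weight S D ≤ f.natDegree ∧ (LargeNorm ε S ∨ SmallMeanSquare ε S))

/-- The Mahler measures of the polynomials of the class. -/
def classMeasures (ε : ℝ) (φ : ℕ → ℝ) : Set ℝ :=
  {x : ℝ | ∃ f : ℤ[X], InClass ε φ f ∧ x = (f.map (Int.castRingHom ℂ)).mahlerMeasure}

theorem result (ε : ℝ) (hε : 0 < ε) (φ : ℕ → ℝ) (hφ : Tendsto φ atTop atTop) :
    (∀ B : ℝ, (classMeasures ε φ ∩ Set.Iic B).Finite) ∧
    (∀ T : Set ℝ, BoundedCompanions T →
      BoundedCompanions (Submonoid.closure (T ∪ classMeasures ε φ) : Submonoid ℝ) ∧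
      closure ((Submonoid.closure (T ∪ classMeasures ε φ) : Submonoid ℝ) : Set ℝ) ⊆
        allMeasures ∧
      (∃ δ : ℝ, 1 < δ ∧ ∀ x ∈ (Submonoid.closure (T ∪ classMeasures ε φ) : Submonoid ℝ),
        x = 1 ∨ δ ≤ x) ∧
      ∀ B : ℝ, ∃ m : ℕ, ∀ x ∈ derivedSet^[m]
        ((Submonoid.closure (T ∪ classMeasures ε φ) : Submonoid ℝ) : Set ℝ), B ≤ x) := by
  classical
  obtain ⟨c1, hc1, H1⟩ := Pool.Agent.H196R3.LI.units_rank
  obtain ⟨c2, hc2, H2⟩ := Pool.Agent.V11316.LM.polyA (min ε 1) (lt_min hε one_pos) (min_le_right _ _)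
  obtain ⟨c3, hc3, H3⟩ := Pool.Agent.V11316.LM.polyC (min ε 1) (lt_min hε one_pos) (min_le_right _ _)
  set c := min (c1 / 2) (min c2 c3) with hc
  have hc0 : 0 < c := lt_min (by positivity) (lt_min hc2 hc3)
  have hg : Tendsto (fun n => c * φ n) atTop atTop := hφ.const_mul_atTop hc0
  have hcl : ∀ f, InClass ε φ f → f ≠ 0 ∧ ((f.map (Int.castRingHom ℂ)).mahlerMeasure = 1 ∨
      c * φ f.natDegree ≤ Real.log (f.map (Int.castRingHom ℂ)).mahlerMeasure) := by
    rintro f ⟨hf, hfm, hf0, S, D, hSne, hS, htor, hcase⟩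
    refine ⟨hfm.ne_zero, Or.inr ?_⟩
    have hM1 : 1 ≤ (f.map (Int.castRingHom ℂ)).mahlerMeasure :=
      Polynomial.one_le_mahlerMeasure_of_ne_zero hfm.ne_zero
    have hlM : 0 ≤ Real.log (f.map (Int.castRingHom ℂ)).mahlerMeasure := Real.log_nonneg hM1
    have hMM : Pool.Agent.H388SL.MM f = (f.map (Int.castRingHom ℂ)).mahlerMeasure := rfl
    rcases le_total (φ f.natDegree) 0 with hneg | hpos
    · have : c * φ f.natDegree ≤ 0 := mul_nonpos_of_nonneg_of_nonpos hc0.le hneg
      linarith
    have hk1 : (1 : ℝ) ≤ S.card := by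
      have : 1 ≤ S.card := Finset.card_pos.2 hSne
      exact_mod_cast this
    have hsum : (1 : ℝ) ≤ ∑ x ∈ S, (D x : ℝ) := by
      obtain ⟨x, hx⟩ := hSne
      calc (1 : ℝ) ≤ (D x : ℝ) := by exact_mod_cast (hS x hx).1
        _ ≤ ∑ x ∈ S, (D x : ℝ) :=
          Finset.single_le_sum (f := fun x => (D x : ℝ)) (fun _ _ => Nat.cast_nonneg _) hx
    have hlog : 0 < Real.log (2 * S.card) := Real.log_pos (by linarith)
    have hW0 : 0 < weight S D := by
      unfold weight
      positivity
    have hS' : ∀ x ∈ S, ∃ l : List ℂ, l.length ≤ D x ∧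
        (∀ z ∈ l, aeval z f = 0 ∨ aeval z⁻¹ f = 0) ∧ x = l.prod := fun x hx => (hS x hx).2
    rcases hcase with h | ⟨h, hN | hQ⟩
    · have h1 := Pool.Agent.H196R3.LI.monomials (c := c1) H1 hf hfm hf0 S D hS' htor
      rw [hMM, div_le_iff₀ (by positivity)] at h1
      have h2 : c1 * f.natDegree * ((S.card : ℝ) - rank S) ≤
          2 * weight S D * Real.log (f.map (Int.castRingHom ℂ)).mahlerMeasure := by
        calc c1 * f.natDegree * ((S.card : ℝ) - rank S) ≤ _ := h1
          _ = _ := by unfold weight; ring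
      have h3 : c1 / 2 * φ f.natDegree * weight S D ≤
          Real.log (f.map (Int.castRingHom ℂ)).mahlerMeasure * weight S D := by
        nlinarith
      have h4 := le_of_mul_le_mul_right h3 hW0
      have h5 : c ≤ c1 / 2 := min_le_left _ _
      nlinarith
    · obtain ⟨a, ha, β, hβ, hnorm⟩ := hN
      have hβi : IsIntegral ℚ β := by
        rw [hβ]
        refine IsIntegral.sum _ fun x hx => IsIntegral.mul ?_ ?_
        · exact isIntegral_algebraMap (R := ℚ) (A := ℂ) (x := a x)
        · obtain ⟨l, -, hl, rfl⟩ := hS' x hx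
          have hz : ∀ z ∈ l, IsIntegral ℚ z := by
            intro z hz
            rcases hl z hz with h7 | h7
            · exact IsIntegral.tower_top (R := ℤ) ⟨f, hfm, by rwa [← aeval_def]⟩
            · have h8 : IsIntegral ℚ z⁻¹ :=
                IsIntegral.tower_top (R := ℤ) ⟨f, hfm, by rwa [← aeval_def]⟩
              have h9 := h8.inv
              rwa [inv_inv] at h9
          clear hl hx
          induction l with
          | nil => simpa using (isIntegral_one : IsIntegral ℚ (1 : ℂ))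
          | cons b l ih =>
            rw [List.prod_cons]
            exact (hz b List.mem_cons_self).mul (ih fun z h => hz z (List.mem_cons_of_mem _ h))
      have hC : 0 ≤ ∑ x ∈ S, ((a x : ℚ) : ℝ) ^ 2 := Finset.sum_nonneg fun _ _ => sq_nonneg _
      have h1 := H2 f hf hfm hf0 S D hS' htor a ha β hβ (by
        have h7 : (((minpoly ℚ β).aroots ℂ).map (fun z => ‖z‖ ^ 2)).prod =
            (((minpoly ℚ β).coeff 0 : ℚ) : ℝ) ^ 2 := by
          rw [Multiset.prod_map_pow, Pool.Agent.V11316.LM.prod_conj hβi, sq_abs]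
        rw [← h7]
        refine le_trans (pow_le_pow_left₀ ?_ ?_ _) hnorm
        · have : 0 < min ε 1 := lt_min hε one_pos
          positivity
        · apply mul_le_mul_of_nonneg_right _ hC
          linarith [min_le_left ε 1])
      rw [hMM, ← Real.le_log_iff_exp_le (by linarith)] at h1
      have h2 : c2 * φ f.natDegree ≤ c2 * f.natDegree / weight S D := by
        rw [le_div_iff₀ hW0]
        nlinarith
      have h3 : c ≤ c2 := (min_le_right _ _).trans (min_le_left _ _)
      calc c * φ f.natDegree ≤ c2 * φ f.natDegree := by nlinarith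
        _ ≤ c2 * f.natDegree / weight S D := h2
        _ ≤ _ := h1
    · obtain ⟨a, ha, β, hβ, hms⟩ := hQ
      have hC : 0 ≤ ∑ x ∈ S, ((a x : ℚ) : ℝ) ^ 2 := Finset.sum_nonneg fun _ _ => sq_nonneg _
      have h1 := H3 f hf hfm hf0 S D hS' htor a ha β hβ (by
        refine hms.trans ?_
        have h5 : (0 : ℝ) ≤ (minpoly ℚ β).natDegree := Nat.cast_nonneg _
        have h6 : (minpoly ℚ β).natDegree * ((1 - ε) * ∑ x ∈ S, ((a x : ℚ) : ℝ) ^ 2) =
          (1 - ε) * ((minpoly ℚ β).natDegree * ∑ x ∈ S, ((a x : ℚ) : ℝ) ^ 2) := by ring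
        rw [h6]
        apply mul_le_mul_of_nonneg_right _ (by positivity)
        linarith [min_le_left ε 1])
      rw [hMM, ← Real.le_log_iff_exp_le (by linarith)] at h1
      have h2 : c3 * φ f.natDegree ≤ c3 * f.natDegree / weight S D := by
        rw [le_div_iff₀ hW0]
        nlinarith
      have h3 : c ≤ c3 := (min_le_right _ _).trans (min_le_right _ _)
      calc c * φ f.natDegree ≤ c3 * φ f.natDegree := by nlinarith
        _ ≤ c3 * f.natDegree / weight S D := h2
        _ ≤ _ := h1
  exact ⟨fun B => Pool.Agent.V1156.RC.finite_of_growth hg hcl B,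
    fun T hT => Pool.Agent.V1156.RC.monoid_of_growth hg hcl T hT⟩

end

end Pool.Agent.Results.MP_6d22ea_nt.LinearRelations
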