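import Mathlib
import Pool.Agent.V1156.RC.Closed
import Pool.Agent.V1156.RC.Place

/-!
# Mahler measures of polynomials with many zeros in local fields

Let `φ n` tend to infinity. The class consists of the monic irreducible integer polynomials `f` with
`|f(0)| = 1`, of degree `n`, for which there are finitely many (or no) nonarchimedean local fields
`K_i` of characteristic zero over distinct primes `p_i`, with ramification index `e_i` and residue
field with `q_i` elements, and sets of `R_i` zeros of `f` in `K_i`, no two of which differ by a root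
of unity only, such that `S = R ^ 2 / 96 + ∑ R_i ^ 2 log p_i / (e_i (q_i - 1))`, with `R` the number
of the real zeros of `f`, and `W = ∑ R_i log p_i / e_i` satisfy `S ≥ n` and
`min (S / n, S ^ 2 / (n ^ 2 (2 + log n) + n W)) ≥ φ(n)`. For example it contains, for a suitable `φ`,
the `f` with more than `ψ(n) √n (log 2n) ^ (1/4)` zeros in `ℚ_p`, for a fixed prime `p`, no two of
which differ by a root of unity only, `ψ(n)` tending to infinity.

Below every bound there are only finitely many Mahler measures of polynomials of the class. So the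
multiplicative monoid generated by these measures and by any class with bounded companions has
bounded companions: its closure consists of Mahler measures, it has a gap above `1`, and below every
bound it has finite Cantor-Bendixson rank.
-/

set_option autoImplicit false

namespace Pool.Agent.Results.MP_6d22ea_nt.LocalZeros

open Polynomial Filter ValuativeRel

noncomputable section

/-- The point `(exp (2 π i t_1), …, exp (2 π i t_k))` of the torus. -/
def torusPoint {k : ℕ} (t : Fin k → ℝ) : Fin k → ℂ := fun j =>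
  Complex.exp (2 * (Real.pi : ℂ) * Complex.I * ((t j : ℝ) : ℂ))

/-- The Mahler measure of a complex polynomial in `k` variables. -/
def mahler {k : ℕ} (F : MvPolynomial (Fin k) ℂ) : ℝ :=
  Real.exp (∫ t in Set.Icc (0 : Fin k → ℝ) 1, Real.log ‖MvPolynomial.eval (torusPoint t) F‖)

/-- The integral of `log max(|F|, |G|)` over the torus. -/
def pairHeight {k : ℕ} (F G : MvPolynomial (Fin k) ℂ) : ℝ :=
  ∫ t in Set.Icc (0 : Fin k → ℝ) 1,
    Real.log (max ‖MvPolynomial.eval (torusPoint t) F‖ ‖MvPolynomial.eval (torusPoint t) G‖)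

/-- An integer polynomial as a complex polynomial. -/
def toComplex {k : ℕ} (F : MvPolynomial (Fin k) ℤ) : MvPolynomial (Fin k) ℂ :=
  MvPolynomial.map (Int.castRingHom ℂ) F

/-- The set of the Mahler measures of the nonzero integer polynomials in any number of variables. -/
def allMeasures : Set ℝ :=
  {x : ℝ | ∃ k : ℕ, 1 ≤ k ∧ ∃ F : MvPolynomial (Fin k) ℤ, F ≠ 0 ∧ x = mahler (toComplex F)}

/-- The Mahler measures of the nonzero polynomials `F` having a coprime companion `G ≠ 0` with
`∫ log max(|F|, |G|) ≤ K`. -/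
def L (K : ℝ) : Set ℝ :=
  {x : ℝ | ∃ k : ℕ, 1 ≤ k ∧ ∃ F G : MvPolynomial (Fin k) ℤ, F ≠ 0 ∧ G ≠ 0 ∧ IsRelPrime F G ∧
    pairHeight (toComplex F) (toComplex G) ≤ K ∧ x = mahler (toComplex F)}

/-- For every `B` some `L K` contains all elements of `T` below `B`. -/
def BoundedCompanions (T : Set ℝ) : Prop := ∀ B : ℝ, ∃ K : ℝ, T ∩ Set.Iio B ⊆ L K

/-- A nonarchimedean local field `K` of characteristic zero (in the sense of Mathlib) with the
prime number `p` below it and its ramification index `e`, so `p 𝒪 = 𝔪 ^ e`. -/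
structure Place : Type 1 where
  p : ℕ
  hp : p.Prime
  K : Type
  [fld : Field K]
  [val : ValuativeRel K]
  [top : TopologicalSpace K]
  [loc : IsNonarchimedeanLocalField K]
  [char0 : CharZero K]
  e : ℕ
  he : 1 ≤ e
  ram : Ideal.span {((p : ℕ) : 𝒪[K])} = 𝓂[K] ^ e

attribute [instance] Place.fld Place.val Place.top Place.loc Place.char0

/-- the number of elements of the residue field -/
def Place.q (D : Place) : ℕ := Nat.card 𝓀[D.K]

/-- `Y` consists of zeros of `f`, and no two of its elements differ by a root of unity only -/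
def ZeroSet (f : ℤ[X]) {K : Type} [Field K] (Y : Finset K) : Prop :=
  (∀ x ∈ Y, aeval x f = 0) ∧ ∀ x ∈ Y, ∀ y ∈ Y, ∀ m : ℕ, 1 ≤ m → x ^ m = y ^ m → x = y

/-- the number of real zeros of `f` -/
def realZeros (f : ℤ[X]) : ℕ := {x : ℝ | aeval x f = 0}.ncard

/-- the sum `S` -/
def sqSum (f : ℤ[X]) {m : ℕ} (D : Fin m → Place) (Y : ∀ i, Finset (D i).K) : ℝ :=
  (realZeros f : ℝ) ^ 2 / 96 +
    ∑ i, ((Y i).card : ℝ) ^ 2 * Real.log (D i).p / ((D i).e * ((D i).q - 1))

/-- the sum `W` -/
def linSum {m : ℕ} (D : Fin m → Place) (Y : ∀ i, Finset (D i).K) : ℝ :=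
  ∑ i, ((Y i).card : ℝ) * Real.log (D i).p / (D i).e

/-- The class of polynomials. -/
def InClass (φ : ℕ → ℝ) (f : ℤ[X]) : Prop :=
  Irreducible f ∧ f.Monic ∧ |f.coeff 0| = 1 ∧ ∃ (m : ℕ) (D : Fin m → Place)
    (Y : ∀ i, Finset (D i).K), Function.Injective (fun i => (D i).p) ∧ (∀ i, ZeroSet f (Y i)) ∧
    f.natDegree ≤ sqSum f D Y ∧
    φ f.natDegree ≤ min (sqSum f D Y / f.natDegree) (sqSum f D Y ^ 2 /
      ((f.natDegree : ℝ) ^ 2 * (2 + Real.log f.natDegree) + f.natDegree * linSum D Y))

/-- The Mahler measures of the polynomials of the class. -/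
def classMeasures (φ : ℕ → ℝ) : Set ℝ :=
  {x : ℝ | ∃ f : ℤ[X], InClass φ f ∧ x = (f.map (Int.castRingHom ℂ)).mahlerMeasure}

theorem result (φ : ℕ → ℝ) (hφ : Tendsto φ atTop atTop) :
    (∀ B : ℝ, (classMeasures φ ∩ Set.Iic B).Finite) ∧
    (∀ T : Set ℝ, BoundedCompanions T →
      BoundedCompanions (Submonoid.closure (T ∪ classMeasures φ) : Submonoid ℝ) ∧
      closure ((Submonoid.closure (T ∪ classMeasures φ) : Submonoid ℝ) : Set ℝ) ⊆
        allMeasures ∧
      (∃ δ : ℝ, 1 < δ ∧ ∀ x ∈ (Submonoid.closure (T ∪ classMeasures φ) : Submonoid ℝ),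
        x = 1 ∨ δ ≤ x) ∧
      ∀ B : ℝ, ∃ m : ℕ, ∀ x ∈ derivedSet^[m]
        ((Submonoid.closure (T ∪ classMeasures φ) : Submonoid ℝ) : Set ℝ), B ≤ x) := by
  have hg : Tendsto (fun n => φ n / 80) atTop atTop := hφ.atTop_div_const (by norm_num)
  have hcl : ∀ f, InClass φ f → f ≠ 0 ∧ ((f.map (Int.castRingHom ℂ)).mahlerMeasure = 1 ∨
      φ f.natDegree / 80 ≤ Real.log (f.map (Int.castRingHom ℂ)).mahlerMeasure) := by
    rintro f ⟨hf, hfm, hf0, m, D, Y, hinj, hY, hS, hφS⟩
    refine ⟨hfm.ne_zero, ?_⟩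
    have hM1 : 1 ≤ (f.map (Int.castRingHom ℂ)).mahlerMeasure :=
      Polynomial.one_le_mahlerMeasure_of_ne_zero hfm.ne_zero
    rcases hM1.eq_or_lt with h | hM
    · exact Or.inl h.symm
    right
    let D' : Fin m → Pool.Agent.Y642.LZ.Place.{0} := fun i =>
      { p := (D i).p, hp := (D i).hp, K := (D i).K, e := (D i).e, he := (D i).he,
        ram := (D i).ram }
    have e1 : sqSum f D Y =
        Pool.Agent.Y642.LZ.placeSq f Finset.univ D' (fun i => (Y i).card) := rfl
    have e2 : linSum D Y = Pool.Agent.Y642.LZ.placeLin Finset.univ D' (fun i => (Y i).card) := rfl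
    have h4 := Pool.Agent.V1156.RC.place_monic f hf hfm (Int.isUnit_iff_abs_eq.mpr hf0) hM
      Finset.univ D' hinj.injOn Y (fun i _ => (hY i).1) (fun i _ => (hY i).2) e1 e2 hS
    rw [div_le_iff₀ (by norm_num)]
    linarith
  exact ⟨fun B => Pool.Agent.V1156.RC.finite_of_growth hg hcl B,
    fun T hT => Pool.Agent.V1156.RC.monoid_of_growth hg hcl T hT⟩

end

end Pool.Agent.Results.MP_6d22ea_nt.LocalZeros
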