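import Mathlib
import Pool.Agent.V1156.RC.Closed
import Pool.Agent.TH869.LS.S3

/-!
# Mahler measures of polynomials with many zeros in thin sectors

Let `q ≥ 1` and let `φ n` tend to infinity. The class consists of the monic irreducible integer
polynomials `f` such that, for some `θ ≥ 0`, the number `X` of the complex zeros `z` of `f` for which
`z ^ q` has argument at most `θ` in absolute value satisfies `16 q n θ ≤ X`,
`32768 q ^ 3 n ^ 2 log (2 n) θ ≤ X ^ 3` and `min (X ^ 2 / n, X ^ 4 / (n ^ 2 log (2 n))) ≥ φ(n)`, with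
`n` the degree of `f`. For example (`q = 2`, `θ = 0`) the class contains the monic irreducible `f`
with more than `ψ(n) √n (log 2n) ^ (1/4)` real zeros, `ψ(n)` tending to infinity, for a suitable `φ`.

Below every bound there are only finitely many Mahler measures of polynomials of the class. So the
multiplicative monoid generated by these measures and by any class with bounded companions has
bounded companions: its closure consists of Mahler measures, it has a gap above `1`, and below every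
bound it has finite Cantor-Bendixson rank.
-/

set_option autoImplicit false

namespace Pool.Agent.Results.MP_6d22ea_nt.SectorZeros

open Polynomial Filter

noncomputable section

/-- The point `(exp (2 π i t_1), …, exp (2 π i t_k))` of the torus. -/
def torusPoint {k : ℕ} (t : Fin k → ℝ) : Fin k → ℂ := fun j =>
  Complex.exp (2 * (Real.pi : ℂ) * Complex.I * ((t j : ℝ) : ℂ))

/-- The Mahler measure of a complex polynomial in `k` variables. -/
def mahler {k : ℕ} (F : MvPolynomial (Fin k) ℂ) : ℝ :=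
  Real.exp (∫ t in Set.Icc (0 : Fin k → ℝ) 1, Real.log ‖MvPolynomial.eval (torusPoint t) F‖)

/-- The integral of `log max(|F|, |G|)` over the torus. -/
def pairHeight {k : ℕ} (F G : MvPolynomial (Fin k) ℂ) : ℝ :=
  ∫ t in Set.Icc (0 : Fin k → ℝ) 1,
    Real.log (max ‖MvPolynomial.eval (torusPoint t) F‖ ‖MvPolynomial.eval (torusPoint t) G‖)

/-- An integer polynomial as a complex polynomial. -/
def toComplex {k : ℕ} (F : MvPolynomial (Fin k) ℤ) : MvPolynomial (Fin k) ℂ :=
  MvPolynomial.map (Int.castRingHom ℂ) F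

/-- The set of the Mahler measures of the nonzero integer polynomials in any number of variables. -/
def allMeasures : Set ℝ :=
  {x : ℝ | ∃ k : ℕ, 1 ≤ k ∧ ∃ F : MvPolynomial (Fin k) ℤ, F ≠ 0 ∧ x = mahler (toComplex F)}

/-- The Mahler measures of the nonzero polynomials `F` having a coprime companion `G ≠ 0` with
`∫ log max(|F|, |G|) ≤ K`. -/
def L (K : ℝ) : Set ℝ :=
  {x : ℝ | ∃ k : ℕ, 1 ≤ k ∧ ∃ F G : MvPolynomial (Fin k) ℤ, F ≠ 0 ∧ G ≠ 0 ∧ IsRelPrime F G ∧
    pairHeight (toComplex F) (toComplex G) ≤ K ∧ x = mahler (toComplex F)}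

/-- For every `B` some `L K` contains all elements of `T` below `B`. -/
def BoundedCompanions (T : Set ℝ) : Prop := ∀ B : ℝ, ∃ K : ℝ, T ∩ Set.Iio B ⊆ L K

open Classical in
/-- The number of the complex zeros `z` of `f`, counted with multiplicity, for which the argument of
`z ^ q` is at most `θ` in absolute value. -/
def sectorZeros (f : ℤ[X]) (q : ℕ) (θ : ℝ) : ℕ :=
  Multiset.card ((f.map (Int.castRingHom ℂ)).roots.filter fun z => |Complex.arg (z ^ q)| ≤ θ)

/-- The class of polynomials. -/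
def InClass (q : ℕ) (φ : ℕ → ℝ) (f : ℤ[X]) : Prop :=
  Irreducible f ∧ f.Monic ∧ ∃ θ : ℝ, 0 ≤ θ ∧ 16 * q * f.natDegree * θ ≤ sectorZeros f q θ ∧
    32768 * (q : ℝ) ^ 3 * (f.natDegree : ℝ) ^ 2 * Real.log (2 * f.natDegree) * θ ≤
      (sectorZeros f q θ : ℝ) ^ 3 ∧
    φ f.natDegree ≤ min ((sectorZeros f q θ : ℝ) ^ 2 / f.natDegree)
      ((sectorZeros f q θ : ℝ) ^ 4 / ((f.natDegree : ℝ) ^ 2 * Real.log (2 * f.natDegree)))

/-- The Mahler measures of the polynomials of the class. -/
def classMeasures (q : ℕ) (φ : ℕ → ℝ) : Set ℝ :=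
  {x : ℝ | ∃ f : ℤ[X], InClass q φ f ∧ x = (f.map (Int.castRingHom ℂ)).mahlerMeasure}

lemma eq_secRoots (f : ℤ[X]) (q : ℕ) (θ : ℝ) :
    Pool.Agent.TH869.LS.secRoots f q θ = sectorZeros f q θ := by
  unfold Pool.Agent.TH869.LS.secRoots sectorZeros
  congr!

theorem result (q : ℕ) (hq : 1 ≤ q) (φ : ℕ → ℝ) (hφ : Tendsto φ atTop atTop) :
    (∀ B : ℝ, (classMeasures q φ ∩ Set.Iic B).Finite) ∧
    (∀ T : Set ℝ, BoundedCompanions T →
      BoundedCompanions (Submonoid.closure (T ∪ classMeasures q φ) : Submonoid ℝ) ∧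
      closure ((Submonoid.closure (T ∪ classMeasures q φ) : Submonoid ℝ) : Set ℝ) ⊆
        allMeasures ∧
      (∃ δ : ℝ, 1 < δ ∧ ∀ x ∈ (Submonoid.closure (T ∪ classMeasures q φ) : Submonoid ℝ),
        x = 1 ∨ δ ≤ x) ∧
      ∀ B : ℝ, ∃ m : ℕ, ∀ x ∈ derivedSet^[m]
        ((Submonoid.closure (T ∪ classMeasures q φ) : Submonoid ℝ) : Set ℝ), B ≤ x) := by
  have hq0 : (0:ℝ) < q := by exact_mod_cast hq
  have hg : Tendsto (fun n => φ n / (1064960 * (q : ℝ) ^ 5)) atTop atTop :=
    hφ.atTop_div_const (by positivity)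
  have hcl : ∀ f, InClass q φ f → f ≠ 0 ∧ ((f.map (Int.castRingHom ℂ)).mahlerMeasure = 1 ∨
      φ f.natDegree / (1064960 * (q : ℝ) ^ 5) ≤
        Real.log (f.map (Int.castRingHom ℂ)).mahlerMeasure) := by
    rintro f ⟨hf, hfm, θ, hθ0, h1, h2, h3⟩
    refine ⟨hfm.ne_zero, ?_⟩
    have hM1 : 1 ≤ (f.map (Int.castRingHom ℂ)).mahlerMeasure :=
      Polynomial.one_le_mahlerMeasure_of_ne_zero hfm.ne_zero
    rcases hM1.eq_or_lt with h | hM
    · exact Or.inl h.symm
    right
    rw [← eq_secRoots] at h1 h2 h3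
    have h4 := Pool.Agent.TH869.LS.irr_sector f hf hfm hM hq hθ0 h1 h2
    rw [div_le_iff₀ (by positivity)]
    linarith
  exact ⟨fun B => Pool.Agent.V1156.RC.finite_of_growth hg hcl B,
    fun T hT => Pool.Agent.V1156.RC.monoid_of_growth hg hcl T hT⟩

end

end Pool.Agent.Results.MP_6d22ea_nt.SectorZeros
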